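import Mathlib
import Pool.Agent.V11266.LRFDefs
import Pool.Agent.V11266.LRFe

/-! A window of `L²(ℝ)` which admits a local reproducing formula on all discs is a constant multiple
of a time-frequency shift of a Hermite function. -/

open MeasureTheory

namespace Pool.Agent.Results.MP_42c7e8_an.LocalReproducingHermite

open Pool.Agent.V11266.LRF

theorem result (g : ℝ → ℂ) (hg : MemLp g 2 volume) (hg0 : ¬ g =ᵐ[volume] 0)
    (h : LocallyReproducing g) :
    ∃ (n : ℕ) (c : ℂ) (a : ℝ × ℝ), c ≠ 0 ∧
      g =ᵐ[volume] fun t => c * tfShift a (hermiteFn n) t :=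
  Pool.Agent.V11266.LRFe.main g hg hg0 h

end Pool.Agent.Results.MP_42c7e8_an.LocalReproducingHermite
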